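import Pool.Agent.Helper528_RL.Cost

/-!
# Gaussian linear systems: `n ^ 2 log ^ 2 (n / ε)` arithmetic operations

Model of computation. Only the arithmetic operations and the comparisons of real numbers are
counted, as in the problem file; which operation comes next may depend in any way on `n` and on the
outcomes of the earlier comparisons (algebraic computation trees). The algorithms used here
(`Algo`) have a very simple form:

1. `ε` is compared with `1, 1/2, 1/4, ...` until `2 ^ (-t) ≤ ε` (`t = scale ε`);
2. single entries of `A` are compared with dyadic numbers `m / 2 ^ s`, depending on the outcomes of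
   the earlier comparisons (`Tree`);
3. according to the outcomes a matrix `M` of dyadic numbers is chosen, and `x = M b` is computed.

No number computed before step 3 depends on the entries. All dyadic numbers `m / 2 ^ s` have
`|m| ≤ 2 ^ w` and `s ≤ w` (`Tree.Small`), so each can be computed from `1` with at most `3 w + 2`
operations: at most `w` doublings, `w` additions of `1`, `w` halvings, one change of sign and one
operation for the number `2`. `Algo.cost` charges `4 w + 4` for each comparison of an entry and for
each of the `n ^ 2` products and additions of the last step, together with the computation of the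
dyadic number, and `2 t + 2` for step 1.

Result. There is such an algorithm which solves `A x = b` with relative residual at most `ε` for all
`b` and all `ε` in `(0,1)`, and whose cost is at most `8200 n ^ 2 log ^ 2 (n / ε)`, whenever
`n ≥ 3`, the entries of `A` are less than `n ^ 2` and those of the inverse at most `n ^ 3`
(`Good n A`). For matrices of independent standard normal variables this is so with probability at
least `1 - 3 / n`. Hence Q1 has a positive answer for the Gaussian ensemble, with the exponent `2`
for every `ω > 2`.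

The only idea is that the rounded entries of `A` determine, without any further arithmetic
operation on the data, a rounded inverse: the computation of the inverse from the outcomes of the
comparisons is a matter of the control and not charged.
-/

set_option autoImplicit false

namespace Pool.Agent.Results.MP_9b7f10_lc.GaussianSystems

open MeasureTheory Filter Topology Pool.Agent.Helper528_RL

/-- An algorithm: the trees of step 2 and 3, for every size `n` and every scale `t`, and bounds `w`
for the size of the dyadic numbers in them. -/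
structure Algo where
  tree : ∀ n : ℕ, ℕ → Tree n
  word : ℕ → ℕ → ℕ
  small : ∀ n t, (tree n t).Small (word n t)

/-- The matrix `M` chosen by the algorithm for `A` and `ε`. -/
noncomputable def Algo.matrix (a : Algo) {n : ℕ} (A : Fin n → Fin n → ℝ) (ε : ℝ) :
    Fin n → Fin n → ℝ :=
  ((a.tree n (scale ε)).run A).1

/-- The number of comparisons of entries of `A` with dyadic numbers. -/
noncomputable def Algo.comparisons (a : Algo) {n : ℕ} (A : Fin n → Fin n → ℝ) (ε : ℝ) : ℕ :=
  ((a.tree n (scale ε)).run A).2

/-- The number of arithmetic operations and comparisons. -/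
noncomputable def Algo.cost (a : Algo) {n : ℕ} (A : Fin n → Fin n → ℝ) (ε : ℝ) : ℕ :=
  (a.comparisons A ε + n * n) * (4 * a.word n (scale ε) + 4) + 2 * scale ε + 2

/-- The output `x = M b`. -/
noncomputable def Algo.output (a : Algo) {n : ℕ} (A : Fin n → Fin n → ℝ) (ε : ℝ)
    (b : Fin n → ℝ) : Fin n → ℝ :=
  fun j => ∑ k, a.matrix A ε j k * b k

/-- `‖A x - b‖ ≤ ε ‖b‖` in the Euclidean norm. -/
def Accurate {n : ℕ} (A : Fin n → Fin n → ℝ) (ε : ℝ) (b x : Fin n → ℝ) : Prop :=
  ∑ i, (∑ j, A i j * x j - b i) ^ 2 ≤ ε ^ 2 * ∑ i, b i ^ 2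

/-- The law of the Gaussian ensemble: independent standard normal entries. -/
noncomputable def gaussianEnsemble (n : ℕ) : Measure (Fin n × Fin n → ℝ) :=
  Measure.pi fun _ => ProbabilityTheory.gaussianReal 0 1

/-- the algorithm -/
noncomputable def theAlgo : Algo where
  tree := alg
  word := fun n t => t + 9 * Nat.clog 2 n + 2
  small := alg_small

lemma theAlgo_spec (n : ℕ) (hn : 3 ≤ n) (A : Fin n → Fin n → ℝ) (hA : Good n A) (ε : ℝ)
    (hε : 0 < ε) (hε1 : ε < 1) :
    (∀ b, Accurate A ε b (theAlgo.output A ε b)) ∧
      (theAlgo.cost A ε : ℝ) ≤ 8200 * (n : ℝ) ^ 2 * Real.log (n / ε) ^ 2 := by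
  constructor
  · intro b
    have h1 := residual n (scale ε) (by omega) A hA b
    have h2 := scale_le ε hε
    unfold Accurate Algo.output Algo.matrix
    refine h1.trans ?_
    have h3 : (1 : ℝ) / 2 ^ scale ε ≤ ε := by rwa [one_div_pow] at h2
    have h4 : 0 ≤ ∑ i, b i ^ 2 := Finset.sum_nonneg fun i _ => sq_nonneg _
    gcongr
  · refine le_trans (le_of_eq ?_) (cost_bound n hn ε hε hε1)
    unfold Algo.cost Algo.comparisons
    change (((((alg n (scale ε)).run A).2 + n * n) *
      (4 * (scale ε + 9 * Nat.clog 2 n + 2) + 4) + 2 * scale ε + 2 : ℕ) : ℝ) = _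
    rw [alg_run n (scale ε) A hA]

/-- **Gaussian linear systems can be solved with `O(n ^ 2 log ^ 2 (n / ε))` arithmetic operations.** -/
theorem result :
    -- 1. all matrices with inverses of polynomial size
    (∃ a : Algo, ∀ (n : ℕ), 3 ≤ n → ∀ A : Fin n → Fin n → ℝ, Good n A →
      ∀ ε : ℝ, 0 < ε → ε < 1 →
        (∀ b, Accurate A ε b (a.output A ε b)) ∧
        (a.cost A ε : ℝ) ≤ 8200 * (n : ℝ) ^ 2 * Real.log (n / ε) ^ 2) ∧
    -- 2. Gaussian matrices are of this kind with probability at least `1 - 3 / n`
    (∀ n : ℕ, 1 ≤ n → ∃ E : Set (Fin n × Fin n → ℝ), MeasurableSet E ∧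
      gaussianEnsemble n Eᶜ ≤ ENNReal.ofReal (3 / n) ∧
      ∀ x ∈ E, Good n (fun i j => x (i, j))) ∧
    -- 3. the positive answer to the question for the Gaussian ensemble
    (∀ ω : ℝ, 2 < ω → ∃ δ : ℝ, 0 < δ ∧ ∃ (C : ℝ) (k : ℕ)
      (E : ∀ n : ℕ, Set (Fin n × Fin n → ℝ)) (a : Algo),
      (∀ n, MeasurableSet (E n)) ∧
      Tendsto (fun n => gaussianEnsemble n (E n)) atTop (𝓝 1) ∧
      ∀ (n : ℕ), ∀ x ∈ E n, ∀ ε : ℝ, 0 < ε → ε < 1 →
        (∀ b, Accurate (fun i j => x (i, j)) ε b (a.output (fun i j => x (i, j)) ε b)) ∧
        (a.cost (fun i j => x (i, j)) ε : ℝ) ≤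
          C * (n : ℝ) ^ (ω - δ) * Real.log (n / ε) ^ k) := by
  refine ⟨⟨theAlgo, theAlgo_spec⟩, fun n hn => ⟨E n, measurable_E n, prob_E n hn,
    fun x hx => good_of_E hx⟩, fun ω hω => ⟨ω - 2, by linarith, 8200, 2,
    fun n => if 3 ≤ n then E n else ∅, theAlgo, fun n => ?_, ?_, ?_⟩⟩
  · change MeasurableSet (if 3 ≤ n then E n else ∅)
    split_ifs
    · exact measurable_E n
    · exact MeasurableSet.empty
  · have h1 : ∀ n : ℕ, 3 ≤ n → 1 - ENNReal.ofReal (3 / n) ≤ gaussianEnsemble n (E n) := by
      intro n hn
      have h2 : gaussianEnsemble n (E n) = 1 - gaussianEnsemble n (E n)ᶜ := by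
        have : IsProbabilityMeasure (gaussianEnsemble n) := by
          unfold gaussianEnsemble
          infer_instance
        rw [prob_compl_eq_one_sub (measurable_E n)]
        rw [ENNReal.sub_sub_cancel (by simp) prob_le_one]
      rw [h2]
      exact tsub_le_tsub_left (prob_E n (by omega)) 1
    have h3 : Tendsto (fun n : ℕ => 1 - ENNReal.ofReal (3 / n)) atTop (𝓝 1) := by
      have h4 : Tendsto (fun n : ℕ => ENNReal.ofReal (3 / n)) atTop (𝓝 0) := by
        have := ENNReal.tendsto_ofReal (tendsto_const_div_atTop_nhds_zero_nat (3 : ℝ))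
        simpa using this
      have h5 := ENNReal.Tendsto.sub (tendsto_const_nhds (x := (1 : ENNReal))) h4
        (Or.inl (by simp))
      simpa using h5
    refine tendsto_of_tendsto_of_tendsto_of_le_of_le' h3 tendsto_const_nhds ?_ ?_
    · filter_upwards [eventually_ge_atTop 3] with n hn
      rw [if_pos hn]
      exact h1 n hn
    · filter_upwards with n
      have : IsProbabilityMeasure (gaussianEnsemble n) := by
        unfold gaussianEnsemble
        infer_instance
      exact prob_le_one
  · intro n x hx ε hε hε1
    change x ∈ (if 3 ≤ n then E n else ∅) at hx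
    by_cases hn : 3 ≤ n
    · rw [if_pos hn] at hx
      have h := theAlgo_spec n hn (fun i j => x (i, j)) (good_of_E hx) ε hε hε1
      refine ⟨h.1, h.2.trans (le_of_eq ?_)⟩
      rw [show ω - (ω - 2) = ((2 : ℕ) : ℝ) by push_cast; ring, Real.rpow_natCast]
    · rw [if_neg hn] at hx
      exact absurd hx (Set.notMem_empty x)

end Pool.Agent.Results.MP_9b7f10_lc.GaussianSystems
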